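import Pool.Agent.K1H27.PL.Stm
import Pool.Agent.K1H2.VM.CPT

/-!
# Project PL (MP_5ac32f_an), part SPC: approximate eigenvectors of `M_φ + K`
-/

set_option autoImplicit false
set_option linter.unusedSectionVars false

namespace Pool.Agent.K1H96.PL

open MeasureTheory Set Metric Filter Topology
open Pool.Agent.K1H27.VM (HasHyp IsInt IsMul HT)
open Pool.Agent.K1H27.PL Pool.Agent.K1H2.VM
open scoped ENNReal NNReal

section

variable {S : Type} [MeasurableSpace S] {μ : Measure S} [SigmaFinite μ] {p q : ℝ≥0∞}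
  [Fact (1 ≤ p)] [Fact (1 ≤ q)]

theorem enorm_le' (hc : p.toReal.HolderConjugate q.toReal) (hp : p ≠ ∞) {k : S → S → ℂ}
    (hk : Measurable (Function.uncurry k)) (f g : Lp ℂ p μ)
    (hg : ⇑g =ᵐ[μ] fun x => ∫ y, k x y * f y ∂μ) :
    ‖g‖ₑ ≤ (HT μ p q k) ^ (1 / p.toReal) * ‖f‖ₑ := by
  have hp0 : p ≠ 0 := (zero_lt_one.trans_le (Fact.out : 1 ≤ p)).ne'
  have hP : 0 < p.toReal := hc.pos
  have hQ : 0 < q.toReal := hc.symm.pos
  have hm : Measurable (fun x => (∫⁻ y, ‖k x y‖ₑ ^ q.toReal ∂μ) ^ (p.toReal / q.toReal)) :=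
    (inner_meas (μ := μ) (F := fun x y => ‖k x y‖ₑ) hk.enorm).pow_const _
  rw [Lp.enorm_def, eLpNorm_congr_ae hg, eLpNorm_eq_lintegral_rpow_enorm_toReal hp0 hp]
  have h1 : ∫⁻ x, ‖∫ y, k x y * f y ∂μ‖ₑ ^ p.toReal ∂μ ≤ HT μ p q k * ‖f‖ₑ ^ p.toReal := by
    unfold HT
    rw [← lintegral_mul_const _ hm]
    refine lintegral_mono fun x => ?_
    calc ‖∫ y, k x y * f y ∂μ‖ₑ ^ p.toReal
        ≤ ((∫⁻ y, ‖k x y‖ₑ ^ q.toReal ∂μ) ^ (1 / q.toReal) * ‖f‖ₑ) ^ p.toReal :=
          ENNReal.rpow_le_rpow ((enorm_integral_le_lintegral_enorm _).trans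
            (holder_pt hc hp hk f x)) hP.le
      _ = _ := by
          rw [ENNReal.mul_rpow_of_nonneg _ _ hP.le, ← ENNReal.rpow_mul]
          congr 2
          ring
  calc (∫⁻ x, ‖∫ y, k x y * f y ∂μ‖ₑ ^ p.toReal ∂μ) ^ (1 / p.toReal)
      ≤ (HT μ p q k * ‖f‖ₑ ^ p.toReal) ^ (1 / p.toReal) :=
        ENNReal.rpow_le_rpow h1 (one_div_pos.2 hP).le
    _ = _ := by
        rw [ENNReal.mul_rpow_of_nonneg _ _ (one_div_pos.2 hP).le, ← ENNReal.rpow_mul,
          mul_one_div_cancel hP.ne', ENNReal.rpow_one]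

/-- unit vectors supported in a set of positive measure -/
theorem exists_unit (hp : p ≠ ∞) {A : Set S} (hA : MeasurableSet A) (h0 : 0 < μ A) :
    ∃ x : Lp ℂ p μ, ‖x‖ = 1 ∧ ∀ᵐ s ∂μ, s ∉ A → x s = 0 := by
  have hp0 : p ≠ 0 := (zero_lt_one.trans_le (Fact.out : 1 ≤ p)).ne'
  obtain ⟨B, hB, hBA, hB0, hB1⟩ := Measure.exists_subset_measure_lt_top hA h0
  set y : Lp ℂ p μ := indicatorConstLp p hB hB1.ne (1:ℂ) with hy
  have hy0 : ‖y‖ ≠ 0 := by
    rw [hy, norm_indicatorConstLp hp0 hp]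
    have : 0 < μ.real B := ENNReal.toReal_pos hB0.ne' hB1.ne
    have := Real.rpow_pos_of_pos this (1 / p.toReal)
    simp only [norm_one, one_mul]
    exact this.ne'
  refine ⟨((‖y‖⁻¹ : ℝ) : ℂ) • y, ?_, ?_⟩
  · rw [norm_smul]
    simp [hy0]
  · filter_upwards [Lp.coeFn_smul (((‖y‖⁻¹ : ℝ) : ℂ)) y, indicatorConstLp_coeFn (p := p) (hs := hB)
      (hμs := hB1.ne) (c := (1:ℂ))] with s h1 h2 hs
    rw [h1]
    have h3 : s ∉ B := fun h => hs (hBA h)
    simp [hy, h2, h3]

end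

theorem t_SPC : S_SPC := by
  intro S _ μ _ p q _ _ hpq hp hq φ hφ _ k hk hHT N K hN hK c hc h0
  have hcc := real_conj hpq hp hq
  have hP : 0 < p.toReal := hcc.pos
  have hQ : 0 < q.toReal := hcc.symm.pos
  set A : ℕ → Set S := fun n => {s | 0 < ‖φ s - c‖ ∧ ‖φ s - c‖ < 1 / ((n:ℝ) + 1)} with hAdef
  have hnm : Measurable (fun s => ‖φ s - c‖) := (hφ.sub_const c).norm
  have hA : ∀ n, MeasurableSet (A n) := fun n =>
    (measurableSet_lt measurable_const hnm).inter (measurableSet_lt hnm measurable_const)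
  have hA0 : ∀ n, 0 < μ (A n) := by
    intro n
    have h1 := hc (1 / ((n:ℝ) + 1)) (by positivity)
    have h2 : {s | ‖φ s - c‖ < 1 / ((n:ℝ) + 1)} ⊆ A n ∪ {s | φ s = c} := by
      intro s hs
      by_cases h : φ s = c
      · exact Or.inr h
      · exact Or.inl ⟨norm_pos_iff.2 (sub_ne_zero.2 h), hs⟩
    have h3 := (measure_mono h2).trans (measure_union_le (μ := μ) _ _)
    rw [h0, add_zero] at h3
    exact h1.trans_le h3
  choose x hx1 hx2 using fun n => exists_unit (p := p) hp (hA n) (hA0 n)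
  refine ⟨x, hx1, ?_⟩
  -- the multiplication part
  have hmul : ∀ n, ‖N (x n) - c • x n‖ ≤ 1 / ((n:ℝ) + 1) := by
    intro n
    have h1 : ‖N (x n) - c • x n‖ ≤ (1 / ((n:ℝ) + 1)) * ‖x n‖ := by
      refine Lp.norm_le_mul_norm_of_ae_le_mul ?_
      filter_upwards [hN (x n), Lp.coeFn_sub (N (x n)) (c • x n), Lp.coeFn_smul c (x n), hx2 n]
        with s h1 h2 h3 h4
      rw [h2, Pi.sub_apply, h1, h3, Pi.smul_apply, smul_eq_mul, ← sub_mul, norm_mul]
      by_cases hs : s ∈ A n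
      · exact mul_le_mul_of_nonneg_right hs.2.le (norm_nonneg _)
      · simp [h4 hs]
    rwa [hx1, mul_one] at h1
  have hmul' : Tendsto (fun n => N (x n) - c • x n) atTop (𝓝 0) :=
    squeeze_zero_norm hmul tendsto_one_div_add_atTop_nhds_zero_nat
  -- the integral part
  set l : ℕ → S → S → ℂ := fun n s t => k s t * (A n).indicator (fun _ => (1:ℂ)) t with hl
  have hlm : ∀ n, Measurable (Function.uncurry (l n)) := fun n =>
    hk.mul ((measurable_const.indicator (hA n)).comp measurable_snd)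
  have hint : ∀ n, ⇑(K (x n)) =ᵐ[μ] fun s => ∫ t, l n s t * x n t ∂μ := by
    intro n
    filter_upwards [hK (x n)] with s hs
    rw [hs]
    refine integral_congr_ae ?_
    filter_upwards [hx2 n] with t ht
    by_cases h : t ∈ A n
    · simp [hl, h]
    · simp [hl, h, ht h]
  have hbd : ∀ n, ‖K (x n)‖ₑ ≤ (HT μ p q (l n)) ^ (1 / p.toReal) := by
    intro n
    have h1 := enorm_le' hcc hp (hlm n) (x n) (K (x n)) (hint n)
    have h2 : ‖x n‖ₑ = 1 := by
      rw [← ofReal_norm_eq_enorm, hx1, ENNReal.ofReal_one]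
    rwa [h2, mul_one] at h1
  have hle : ∀ n s t, ‖l n s t‖ₑ ≤ ‖k s t‖ₑ := by
    intro n s t
    by_cases h : t ∈ A n
    · simp [hl, h]
    · simp [hl, h]
  have hHT0 : Tendsto (fun n => HT μ p q (l n)) atTop (𝓝 0) := by
    have := mx_tendsto (μ := μ) hP hQ (fun s t => ‖k s t‖ₑ) (fun n s t => ‖l n s t‖ₑ)
      (fun n => (hlm n).enorm) hk.enorm hHT hle ?_
    · exact this
    · intro s t
      refine tendsto_const_nhds.congr' ?_
      by_cases h : 0 < ‖φ t - c‖
      · obtain ⟨m, hm⟩ := exists_nat_one_div_lt h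
        filter_upwards [eventually_ge_atTop m] with n hn
        have h2 : t ∉ A n := by
          intro h3
          have h4 : 1 / ((n:ℝ) + 1) ≤ 1 / ((m:ℝ) + 1) := by
            apply one_div_le_one_div_of_le (by positivity)
            have : (m:ℝ) ≤ n := by exact_mod_cast hn
            linarith
          have := h3.2
          linarith
        simp [hl, h2]
      · filter_upwards with n
        have h2 : t ∉ A n := fun h3 => h h3.1
        simp [hl, h2]
  have hK0 : Tendsto (fun n => ‖K (x n)‖ₑ) atTop (𝓝 0) := by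
    refine tendsto_of_tendsto_of_tendsto_of_le_of_le tendsto_const_nhds ?_ (fun n => zero_le) hbd
    have h2 := (ENNReal.continuous_rpow_const (y := 1 / p.toReal)).tendsto _ |>.comp hHT0
    simpa [Function.comp_def, ENNReal.zero_rpow_of_pos (inv_pos.2 hP)] using h2
  have hK1 : Tendsto (fun n => K (x n)) atTop (𝓝 0) := by
    rw [tendsto_zero_iff_norm_tendsto_zero]
    have h3 := (ENNReal.tendsto_toReal ENNReal.zero_ne_top).comp hK0
    simpa [Function.comp_def] using h3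
  have := hmul'.add hK1
  simp only [add_zero] at this
  refine this.congr fun n => ?_
  rw [ContinuousLinearMap.add_apply]
  abel

end Pool.Agent.K1H96.PL
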