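import Pool.Agent.K1H49.PL.Stm

/-!
# Project PL: realizations of a subshape extend
-/

set_option autoImplicit false

namespace Pool.Agent.K1H96.PL

open Pool.Agent.K1H49.PL

/-- `(01)^r` -/
def UU (r : ℕ) : Nd := (List.replicate r [false, true]).flatten

lemma UU_succ (r : ℕ) : UU (r + 1) = false :: true :: UU r := by
  simp [UU, List.replicate_succ]

lemma spc_append (N : ℕ) (μ : Nd) (d : Bool) : spc N (μ ++ [d]) = spc N μ ++ d :: UU N := by
  induction μ with
  | nil => rfl
  | cons a μ ih =>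
    rw [List.cons_append, spc, spc, ih]
    simp

lemma UU_pre (N : ℕ) (ν : Nd) : UU N <+: spc N ν := by
  cases ν with
  | nil => exact List.prefix_rfl
  | cons a ν => exact List.prefix_append _ _

lemma spc_mono (N : ℕ) {μ ν : Nd} (h : μ <+: ν) : spc N μ <+: spc N ν := by
  induction μ generalizing ν with
  | nil => exact UU_pre N ν
  | cons a μ ih =>
    cases ν with
    | nil => simp at h
    | cons c ν =>
      rw [List.cons_prefix_cons] at h
      obtain ⟨rfl, h⟩ := h
      rw [spc, spc, List.prefix_append_right_inj, List.cons_prefix_cons]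
      exact ⟨rfl, ih h⟩

lemma emb_spc (N : ℕ) : Emb (spc N) := by
  intro π d
  rw [spc_append]
  rw [List.prefix_append_right_inj, List.cons_prefix_cons]
  exact ⟨rfl, List.nil_prefix⟩

lemma pos_cons {Λ : Type} (F : Sh Λ) (d : Bool) (ρ : Nd) :
    F.pos (d :: ρ) = (F.pos ρ).map fun p => (d :: p.1, p.2) := by
  induction F generalizing ρ with
  | nil => rfl
  | node ls l r ihl ihr =>
    simp only [Sh.pos, List.cons_append, ihl, ihr, List.map_append, List.map_map]
    rfl

/-- gluing -/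
def gl (x : Nd) (el er : Nd → Nd) : Nd → Nd
  | [] => x
  | false :: π => el π
  | true :: π => er π

lemma emb_gl {x : Nd} {el er : Nd → Nd} (hl : Emb el) (hr : Emb er)
    (h0 : (x ++ [false]) <+: el []) (h1 : (x ++ [true]) <+: er []) : Emb (gl x el er) := by
  intro π d
  cases π with
  | nil => cases d <;> assumption
  | cons c π => cases c <;> [exact hl π d; exact hr π d]

lemma emb_app (b : Nd) : Emb (fun π => b ++ π) := by
  intro π d
  simp

theorem ext_aux {Λ : Type} {F F' : Sh Λ} (h : Pool.Agent.K1H49.PL.Sub F F') :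
    ∃ N0 : ℕ, ∀ N r : ℕ, N0 ≤ N → N0 ≤ r → ∀ (b : Nd) (f : Nd → Nd), (b ++ UU r) <+: f [] →
      (∀ π d, (f π ++ d :: UU N) <+: f (π ++ [d])) →
      ∃ e', Emb e' ∧ b <+: e' [] ∧ ∀ p ∈ F.pos [], ∃ π : Nd, (π, p.2) ∈ F'.pos [] ∧
        e' π = f p.1 := by
  induction h with
  | nil F =>
    refine ⟨0, fun N r _ _ b f _ _ => ⟨fun π => b ++ π, emb_app b, by simp, ?_⟩⟩
    intro p hp
    simp [Sh.pos] at hp
  | @node ls ls' l l' r r' hls _ _ ihl ihr =>
    obtain ⟨Nl, hl⟩ := ihl
    obtain ⟨Nr, hr⟩ := ihr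
    refine ⟨max Nl Nr, fun N q hN hq b f h0 hf => ?_⟩
    have hNl : Nl ≤ N := (le_max_left _ _).trans hN
    have hNr : Nr ≤ N := (le_max_right _ _).trans hN
    obtain ⟨el, hel, hel0, hel1⟩ := hl N N hNl hNl (f [] ++ [false]) (fun π => f (false :: π))
      (by
        have := hf [] false
        simpa using this)
      (fun π d => hf (false :: π) d)
    obtain ⟨er, her, her0, her1⟩ := hr N N hNr hNr (f [] ++ [true]) (fun π => f (true :: π))
      (by
        have := hf [] true
        simpa using this)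
      (fun π d => hf (true :: π) d)
    refine ⟨gl (f []) el er, emb_gl hel her hel0 her0, ?_, ?_⟩
    · exact (List.prefix_append b (UU q)).trans h0
    · intro p hp
      simp only [Sh.pos, List.nil_append, List.mem_append, List.mem_map, pos_cons] at hp ⊢
      rcases hp with ⟨a, ha, rfl⟩ | ⟨p', hp', rfl⟩ | ⟨p', hp', rfl⟩
      · exact ⟨[], Or.inl ⟨a, hls ha, rfl⟩, rfl⟩
      · obtain ⟨π, hπ, he⟩ := hel1 p' hp'
        exact ⟨false :: π, Or.inr (Or.inl ⟨_, hπ, rfl⟩), he⟩
      · obtain ⟨π, hπ, he⟩ := her1 p' hp'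
        exact ⟨true :: π, Or.inr (Or.inr ⟨_, hπ, rfl⟩), he⟩
  | @left F l r ls _ ih =>
    obtain ⟨N0, h⟩ := ih
    refine ⟨N0 + 1, fun N q hN hq b f h0 hf => ?_⟩
    obtain ⟨q', rfl⟩ : ∃ q', q = q' + 1 := ⟨q - 1, by omega⟩
    obtain ⟨e', he', hb', hp'⟩ := h N q' (by omega) (by omega) (b ++ [false, true]) f
      (by rw [UU_succ] at h0; simpa using h0) hf
    refine ⟨gl b e' (fun π => b ++ true :: π), emb_gl he' ?_ ?_ ?_, List.prefix_rfl, ?_⟩
    · intro π d; simp
    · refine List.IsPrefix.trans ?_ hb'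
      simp
    · exact List.prefix_rfl
    · intro p hp
      obtain ⟨π, hπ, he⟩ := hp' p hp
      refine ⟨false :: π, ?_, he⟩
      simp only [Sh.pos, List.nil_append, List.mem_append, List.mem_map, pos_cons]
      exact Or.inr (Or.inl ⟨_, hπ, rfl⟩)
  | @right F l r ls _ ih =>
    obtain ⟨N0, h⟩ := ih
    refine ⟨N0 + 1, fun N q hN hq b f h0 hf => ?_⟩
    obtain ⟨q', rfl⟩ : ∃ q', q = q' + 1 := ⟨q - 1, by omega⟩
    obtain ⟨e', he', hb', hp'⟩ := h N q' (by omega) (by omega) (b ++ [false, true]) f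
      (by rw [UU_succ] at h0; simpa using h0) hf
    refine ⟨gl (b ++ [false]) (fun π => b ++ [false] ++ false :: π) e', emb_gl ?_ he' ?_ ?_,
      ?_, ?_⟩
    · intro π d; simp
    · exact List.prefix_rfl
    · refine List.IsPrefix.trans ?_ hb'
      simp
    · exact List.prefix_append _ _
    · intro p hp
      obtain ⟨π, hπ, he⟩ := hp' p hp
      refine ⟨true :: π, ?_, he⟩
      simp only [Sh.pos, List.nil_append, List.mem_append, List.mem_map, pos_cons]
      exact Or.inr (Or.inr ⟨_, hπ, rfl⟩)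

theorem t_EXT : S_EXT := by
  intro Λ F F' h
  obtain ⟨N, hN⟩ := ext_aux h
  refine ⟨N, emb_spc N, fun e he => ?_⟩
  obtain ⟨e', he', -, hp⟩ := hN N N le_rfl le_rfl [] (fun π => spc N (e π))
    (by rw [List.nil_append]; exact UU_pre N _)
    (fun π d => by
      show (spc N (e π) ++ d :: UU N) <+: spc N (e (π ++ [d]))
      rw [← spc_append]
      exact spc_mono N (he π d))
  exact ⟨e', he', hp⟩

end Pool.Agent.K1H96.PL
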